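import Mathlib
import Pool.Agent.R311.RES.C14

/-! Large central values in every coset of every subgroup of index at most
`exp (δ √(log q logloglog q / loglog q))`, for all large primes `q`. -/

set_option autoImplicit false

namespace Pool.Agent.Results.MP_3e6494_nt.AllCosets

open Pool.Agent.R311.RES in
/-- **Large central values in all cosets of subgroups of small index.** -/
theorem result : ∀ ε : ℝ, 0 < ε → ∃ δ : ℝ, 0 < δ ∧ ∃ q₀ : ℕ,
    ∀ (q : ℕ) [NeZero q], q₀ ≤ q → q.Prime →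
      ∀ (H : Subgroup (DirichletCharacter ℂ q)) (χ₀ : DirichletCharacter ℂ q),
        (H.index : ℝ) ≤ Real.exp (δ * Real.sqrt (Real.log q *
          Real.log (Real.log (Real.log q)) / Real.log (Real.log q))) →
        ∃ ψ ∈ H, Real.exp ((1 / Real.sqrt 3 - ε) * Real.sqrt (Real.log q / Real.log (Real.log q))) ≤
          ‖DirichletCharacter.LFunction (χ₀ * ψ) (1 / 2)‖ := by
  intro ε hε
  obtain ⟨d, hd, q₀, h⟩ := core_final ε hε
  refine ⟨d, hd, q₀, fun q _ hqq hq H χ₀ hH => ?_⟩
  have : Fact q.Prime := ⟨hq⟩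
  obtain ⟨ψ, hψ, h1⟩ := h q hqq H χ₀ hH
  exact ⟨ψ, hψ, h1⟩

end Pool.Agent.Results.MP_3e6494_nt.AllCosets
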