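import Mathlib
import Pool.Agent.R311.RES.B6

/-! Large central values in every coset of every subgroup of size at least `c * q ^ β`, `β > 2/3`,
for almost all primes `q`. -/

set_option autoImplicit false

namespace Pool.Agent.Results.MP_3e6494_nt.AlmostAllPrimes
open Filter Topology

open Pool.Agent.R311.RES in
/-- **Large central values in all cosets, for almost all primes.** -/
theorem result : ∀ β : ℝ, 2 / 3 < β → β ≤ 1 → ∀ c : ℝ, 0 < c → ∀ ε : ℝ, 0 < ε →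
    ∃ η : ℝ, 0 < η ∧ ∃ Q₀ : ℕ, ∀ Q : ℕ, Q₀ ≤ Q →
      ∃ Bad : Finset ℕ, (Bad.card : ℝ) ≤ (Q : ℝ) ^ (1 - η) ∧
        ∀ (q : ℕ) [NeZero q], q.Prime → q ≤ Q → q ∉ Bad →
          ∀ (H : Subgroup (DirichletCharacter ℂ q)) (χ₀ : DirichletCharacter ℂ q),
            c * (q : ℝ) ^ β ≤ (Nat.card H : ℝ) →
            ∃ ψ ∈ H, Real.exp ((Real.sqrt (3 * β - 2) - ε) *
              Real.sqrt (Real.log q * Real.log (Real.log (Real.log q)) / Real.log (Real.log q))) ≤
                ‖DirichletCharacter.LFunction (χ₀ * ψ) (1 / 2)‖ := by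
  intro β hβ hβ1 c hc ε hε
  set a : ℝ := 3 * β - 2 with ha
  have ha0 : 0 < a := by linarith
  have ha1 : a ≤ 1 := by linarith
  have hsa : 0 < Real.sqrt a := Real.sqrt_pos.2 ha0
  set ε₁ : ℝ := min ε (Real.sqrt a) with hε₁
  have hε₁0 : 0 < ε₁ := lt_min hε hsa
  have hε₁ε : ε₁ ≤ ε := min_le_left _ _
  have hε₁a : ε₁ ≤ Real.sqrt a := min_le_right _ _
  set ν : ℝ := min ((ε₁ / 4) ^ 2) (a / 2) / 7 with hν
  have hν0 : 0 < ν := by
    have : 0 < min ((ε₁ / 4) ^ 2) (a / 2) := lt_min (by positivity) (by positivity)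
    positivity
  have hν1 : 7 * ν ≤ (ε₁ / 4) ^ 2 := by
    have := min_le_left ((ε₁ / 4) ^ 2) (a / 2)
    rw [hν]; linarith
  have hν2 : 7 * ν ≤ a / 2 := by
    have := min_le_right ((ε₁ / 4) ^ 2) (a / 2)
    rw [hν]; linarith
  set δ : ℝ := (a - 7 * ν) / 2 with hδ
  have hδ0 : 0 < δ := by rw [hδ]; linarith
  have hsd : Real.sqrt a - ε₁ / 4 ≤ Real.sqrt (2 * δ) := by
    have h1 : Real.sqrt a ≤ Real.sqrt (2 * δ) + Real.sqrt (7 * ν) := by
      rw [Real.sqrt_le_left (by positivity)]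
      have h2 := Real.sq_sqrt (show 0 ≤ 2 * δ by positivity)
      have h3 := Real.sq_sqrt (show 0 ≤ 7 * ν by positivity)
      have h4 : 0 ≤ Real.sqrt (2 * δ) * Real.sqrt (7 * ν) := by positivity
      nlinarith
    have h5 : Real.sqrt (7 * ν) ≤ ε₁ / 4 := by
      rw [Real.sqrt_le_left (by positivity)]
      exact hν1
    linarith
  have hsd1 : Real.sqrt (2 * δ) ≤ 1 := by
    rw [Real.sqrt_le_left (by norm_num)]
    rw [hδ]; linarith
  set h : ℝ := min (1 / 100) (ε₁ / 40) with hh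
  have hh0 : 0 < h := lt_min (by norm_num) (by positivity)
  have hh1 : h ≤ 1 / 100 := min_le_left _ _
  have hhε : h ≤ ε₁ / 40 := min_le_right _ _
  obtain ⟨X0, hX0⟩ := core3 (h := h) (δ := δ) (β := β - ν) (η := ν) hh0 hh1 (by linarith)
    (by linarith) hν0 (by linarith) hδ0 (by rw [hδ]; linarith) (20 / ε₁)
  have t1 : Tendsto (fun q : ℕ => Real.log (q : ℝ)) atTop atTop :=
    Real.tendsto_log_atTop.comp tendsto_natCast_atTop_atTop
  have t2 : Tendsto (fun q : ℕ => ((q : ℝ) ^ (1 - ν)) ^ ν) atTop atTop :=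
    (tendsto_rpow_atTop hν0).comp ((tendsto_rpow_atTop (by linarith)).comp
      tendsto_natCast_atTop_atTop)
  have t3 : Tendsto (fun q : ℕ => Real.log ((q : ℝ) ^ (1 - ν))) atTop atTop :=
    Real.tendsto_log_atTop.comp ((tendsto_rpow_atTop (by linarith)).comp
      tendsto_natCast_atTop_atTop)
  have t4 : Tendsto (fun q : ℕ => (q : ℝ) ^ (ν / 2)) atTop atTop :=
    (tendsto_rpow_atTop (by positivity)).comp tendsto_natCast_atTop_atTop
  obtain ⟨Q₀, hQ₀⟩ := eventually_atTop.1 ((t1.eventually_ge_atTop X0).and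
    ((t2.eventually_ge_atTop (1 / c)).and ((t3.eventually_ge_atTop (Real.exp (Real.exp 1))).and
    ((t4.eventually_ge_atTop 2).and (eventually_ge_atTop 1)))))
  refine ⟨ν / 2, by positivity, Q₀, fun Q hQ => ?_⟩
  obtain ⟨b1, b2, b3, b4, b5⟩ := hQ₀ Q hQ
  obtain ⟨d1, Bad, d2, d3⟩ := hX0 Q b1
  have hQp : (0 : ℝ) < Q := by exact_mod_cast b5
  have hQr : (0 : ℝ) < (Q : ℝ) ^ (1 - ν) := by positivity
  refine ⟨Bad ∪ Finset.Icc 1 ⌊(Q : ℝ) ^ (1 - ν)⌋₊, ?_, ?_⟩
  · have h1 := Finset.card_union_le Bad (Finset.Icc 1 ⌊(Q : ℝ) ^ (1 - ν)⌋₊)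
    rw [Nat.card_Icc, Nat.add_sub_cancel] at h1
    have h2 : ((Bad ∪ Finset.Icc 1 ⌊(Q : ℝ) ^ (1 - ν)⌋₊).card : ℝ) ≤
        (Bad.card : ℝ) + (⌊(Q : ℝ) ^ (1 - ν)⌋₊ : ℝ) := by exact_mod_cast h1
    have h3 : (⌊(Q : ℝ) ^ (1 - ν)⌋₊ : ℝ) ≤ (Q : ℝ) ^ (1 - ν) := Nat.floor_le hQr.le
    have h4 : (Q : ℝ) ^ (1 - ν / 2) = (Q : ℝ) ^ (1 - ν) * (Q : ℝ) ^ (ν / 2) := by
      rw [← Real.rpow_add hQp]; congr 1; ring
    rw [h4]
    nlinarith
  · intro q _ hq hqQ hqB H χ₀ hH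
    have : Fact q.Prime := ⟨hq⟩
    rw [Finset.mem_union, not_or] at hqB
    have hqY : (Q : ℝ) ^ (1 - ν) ≤ q := by
      by_contra hcon
      apply hqB.2
      rw [Finset.mem_Icc]
      exact ⟨hq.pos, Nat.le_floor (not_le.1 hcon).le⟩
    have hqp : (0 : ℝ) < q := by exact_mod_cast hq.pos
    have hH' : (q : ℝ) ^ (β - ν) ≤ (Nat.card H : ℝ) := by
      refine le_trans ?_ hH
      have e : (q : ℝ) ^ β = (q : ℝ) ^ (β - ν) * (q : ℝ) ^ ν := by
        rw [← Real.rpow_add hqp]; congr 1; ring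
      have e2 : 1 / c ≤ (q : ℝ) ^ ν := b2.trans (Real.rpow_le_rpow hQr.le hqY hν0.le)
      rw [div_le_iff₀ hc] at e2
      have h0 : 0 ≤ (q : ℝ) ^ (β - ν) := by positivity
      rw [e]
      calc (q : ℝ) ^ (β - ν) = (q : ℝ) ^ (β - ν) * 1 := (mul_one _).symm
        _ ≤ (q : ℝ) ^ (β - ν) * ((q : ℝ) ^ ν * c) := mul_le_mul_of_nonneg_left e2 h0
        _ = _ := by ring
    set F : ℝ := FF (Real.log Q) with hF
    have hFq : Real.sqrt (Real.log q * Real.log (Real.log (Real.log q)) / Real.log (Real.log q)) ≤ F := by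
      apply FF_mono
      · exact b3.trans (Real.log_le_log hQr hqY)
      · exact Real.log_le_log hqp (by exact_mod_cast hqQ)
    have hF0 : 0 < F := lt_of_lt_of_le (by positivity) d1
    by_contra hcon
    push Not at hcon
    have hsq0 := Real.sqrt_nonneg (Real.log q * Real.log (Real.log (Real.log q)) / Real.log (Real.log q))
    have hV : ∀ ψ ∈ H, ‖DirichletCharacter.LFunction (χ₀ * ψ) (1 / 2)‖ ≤
        Real.exp ((Real.sqrt a - ε₁) * F) := by
      intro ψ hψ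
      refine (hcon ψ hψ).le.trans ?_
      rw [Real.exp_le_exp]
      calc (Real.sqrt a - ε) * Real.sqrt (Real.log q * Real.log (Real.log (Real.log q)) /
            Real.log (Real.log q)) ≤ (Real.sqrt a - ε₁) * Real.sqrt (Real.log q *
            Real.log (Real.log (Real.log q)) / Real.log (Real.log q)) :=
            mul_le_mul_of_nonneg_right (by linarith) hsq0
        _ ≤ (Real.sqrt a - ε₁) * F := mul_le_mul_of_nonneg_left hFq (by linarith)
    have h1 := d3 q hqY hqQ hqB.1 H hH' χ₀ _ (Real.exp_pos _).le hV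
    have h2 : Real.exp ((Real.sqrt a - ε₁ / 2) * F) ≤ 2 * Real.exp ((Real.sqrt a - ε₁) * F) + 7 := by
      refine le_trans ?_ h1
      rw [Real.exp_le_exp]
      apply mul_le_mul_of_nonneg_right _ hF0.le
      nlinarith [Real.sqrt_nonneg (2 * δ)]
    have h3 : Real.exp ((Real.sqrt a - ε₁ / 2) * F) =
        Real.exp ((Real.sqrt a - ε₁) * F) * Real.exp (ε₁ / 2 * F) := by
      rw [← Real.exp_add]; congr 1; ring
    have h4 := Real.add_one_le_exp (ε₁ / 2 * F)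
    have h5 : 1 ≤ Real.exp ((Real.sqrt a - ε₁) * F) := by
      apply Real.one_le_exp
      apply mul_nonneg (by linarith) hF0.le
    have h6 : 20 ≤ ε₁ * F := by
      rw [div_le_iff₀ hε₁0] at d1
      linarith
    rw [h3] at h2
    nlinarith

end Pool.Agent.Results.MP_3e6494_nt.AlmostAllPrimes
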