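import Mathlib
import Pool.Agent.R311.RES.A10

/-! Large central values in every subgroup of characters of size at least `c * q ^ β`, `β > 1/2`. -/

set_option autoImplicit false

namespace Pool.Agent.Results.MP_3e6494_nt.LargeSubgroups
open Filter Topology

open Pool.Agent.R311.RES in
/-- **Large central values in subgroups of polynomial index.** -/
theorem result : ∀ β : ℝ, 1 / 2 < β → β ≤ 1 → ∀ c : ℝ, 0 < c → ∀ ε : ℝ, 0 < ε →
    ∃ q₀ : ℕ, ∀ (q : ℕ) [NeZero q], q₀ ≤ q → q.Prime →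
      ∀ H : Subgroup (DirichletCharacter ℂ q), c * (q : ℝ) ^ β ≤ (Nat.card H : ℝ) →
        ∃ χ ∈ H, Real.exp ((Real.sqrt (2 * β - 1) - ε) *
          Real.sqrt (Real.log q * Real.log (Real.log (Real.log q)) / Real.log (Real.log q))) ≤
            ‖DirichletCharacter.LFunction χ (1 / 2)‖ := by
  intro β hβ hβ1 c hc ε hε
  set a : ℝ := 2 * β - 1 with ha
  have ha0 : 0 < a := by linarith
  have ha1 : a ≤ 1 := by linarith
  have hsa : 0 < Real.sqrt a := Real.sqrt_pos.2 ha0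
  set ε₁ : ℝ := min ε (Real.sqrt a) with hε₁
  have hε₁0 : 0 < ε₁ := lt_min hε hsa
  have hε₁ε : ε₁ ≤ ε := min_le_left _ _
  have hε₁a : ε₁ ≤ Real.sqrt a := min_le_right _ _
  set η : ℝ := min (a / 4) ((ε₁ / 4) ^ 2 / 2) with hη
  have hη0 : 0 < η := lt_min (by positivity) (by positivity)
  have hηa : η ≤ a / 4 := min_le_left _ _
  have hηε : η ≤ (ε₁ / 4) ^ 2 / 2 := min_le_right _ _
  set δ : ℝ := a / 2 - η with hδ
  have hδ0 : 0 < δ := by linarith
  have hsd : Real.sqrt a - ε₁ / 4 ≤ Real.sqrt (2 * δ) := by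
    have h1 : Real.sqrt a ≤ Real.sqrt (2 * δ) + Real.sqrt (2 * η) := by
      rw [Real.sqrt_le_left (by positivity)]
      have h2 := Real.sq_sqrt (show 0 ≤ 2 * δ by positivity)
      have h3 := Real.sq_sqrt (show 0 ≤ 2 * η by positivity)
      have h4 : 0 ≤ Real.sqrt (2 * δ) * Real.sqrt (2 * η) := by positivity
      nlinarith
    have h5 : Real.sqrt (2 * η) ≤ ε₁ / 4 := by
      rw [Real.sqrt_le_left (by positivity)]
      linarith
    linarith
  have hsd1 : Real.sqrt (2 * δ) ≤ 1 := by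
    rw [Real.sqrt_le_left (by norm_num)]
    linarith
  set h : ℝ := min (1 / 100) (ε₁ / 40) with hh
  have hh0 : 0 < h := lt_min (by norm_num) (by positivity)
  have hh1 : h ≤ 1 / 100 := min_le_left _ _
  have hhε : h ≤ ε₁ / 40 := min_le_right _ _
  obtain ⟨X0, hX0⟩ := core hh0 hh1 hδ0 (8 / ε₁)
  have t1 : Tendsto (fun q : ℕ => Real.log (q : ℝ)) atTop atTop :=
    Real.tendsto_log_atTop.comp tendsto_natCast_atTop_atTop
  have t2 : Tendsto (fun q : ℕ => (q : ℝ) ^ η) atTop atTop :=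
    (tendsto_rpow_atTop hη0).comp tendsto_natCast_atTop_atTop
  obtain ⟨q₀, hq₀⟩ := eventually_atTop.1 ((t1.eventually_ge_atTop X0).and
    (t2.eventually_ge_atTop (1 / c)))
  refine ⟨q₀, fun q _ hqq hq H hH => ?_⟩
  have : Fact q.Prime := ⟨hq⟩
  obtain ⟨b1, b2⟩ := hq₀ q hqq
  obtain ⟨d1, d2⟩ := hX0 q b1
  have hqp : (0 : ℝ) < q := by exact_mod_cast hq.pos
  have hH' : (q : ℝ) ^ (1 / 2 + δ) ≤ (Nat.card H : ℝ) := by
    refine le_trans ?_ hH
    have e : β = (1 / 2 + δ) + η := by rw [hδ, ha]; ring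
    rw [e, Real.rpow_add hqp (1 / 2 + δ) η]
    rw [div_le_iff₀ hc] at b2
    have h0 : 0 ≤ (q : ℝ) ^ (1 / 2 + δ) := by positivity
    calc (q : ℝ) ^ (1 / 2 + δ) = (q : ℝ) ^ (1 / 2 + δ) * 1 := (mul_one _).symm
      _ ≤ (q : ℝ) ^ (1 / 2 + δ) * ((q : ℝ) ^ η * c) := mul_le_mul_of_nonneg_left b2 h0
      _ = _ := by ring
  set F : ℝ := FF (Real.log q) with hF
  have hFdef : Real.sqrt (Real.log q * Real.log (Real.log (Real.log q)) / Real.log (Real.log q)) = F :=
    rfl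
  rw [hFdef]
  have hF0 : 0 < F := lt_of_lt_of_le (by positivity) d1
  by_contra hcon
  push Not at hcon
  have hV : ∀ χ ∈ H, ‖DirichletCharacter.LFunction χ (1 / 2)‖ ≤ Real.exp ((Real.sqrt a - ε₁) * F) := by
    intro χ hχ
    refine (hcon χ hχ).le.trans ?_
    rw [Real.exp_le_exp]
    apply mul_le_mul_of_nonneg_right _ hF0.le
    linarith
  have h1 := d2 H hH' _ hV
  have h2 : Real.exp ((Real.sqrt a - ε₁ / 2) * F) ≤ Real.exp ((Real.sqrt a - ε₁) * F) + 3 := by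
    refine le_trans ?_ h1
    rw [Real.exp_le_exp]
    apply mul_le_mul_of_nonneg_right _ hF0.le
    nlinarith [Real.sqrt_nonneg (2 * δ)]
  have h3 : Real.exp ((Real.sqrt a - ε₁ / 2) * F) =
      Real.exp ((Real.sqrt a - ε₁) * F) * Real.exp (ε₁ / 2 * F) := by
    rw [← Real.exp_add]; congr 1; ring
  have h4 := Real.add_one_le_exp (ε₁ / 2 * F)
  have h5 : 1 ≤ Real.exp ((Real.sqrt a - ε₁) * F) := by
    apply Real.one_le_exp
    apply mul_nonneg (by linarith) hF0.le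
  have h6 : 8 ≤ ε₁ * F := by
    rw [div_le_iff₀ hε₁0] at d1
    linarith
  rw [h3] at h2
  nlinarith

end Pool.Agent.Results.MP_3e6494_nt.LargeSubgroups
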