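import Pool.Agent.Results.MP_3e6494_nt.AlmostAllPrimes
import Pool.Agent.R482.ST.Star

/-!
# Large central values in every coset for all primes near powers, orbits and other sequences

Let `f_k`, `k = 0, 1, 2, …`, be positive functions on `(a₀, ∞)`, `a₀ ≥ 0`, such that `f_k(t) / t` is nondecreasing, and such
that the sequence `f_k(t)` has exponent of convergence at most `τ` for each `t > a₀`: for instance `f_k(t) = v_k t`
(dilatations; `τ` the exponent of convergence of `v_k > 0`), `f_k(t) = t ^ (v_k)` for exponents `v_k ≥ 1` (`τ = 0`), or the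
orbits `f_k(t) = g (g (⋯ g (t)))` of any map `g` with `g(t) > t` and `g(t) / t` nondecreasing (`τ = 0`).
Let `β > 2 / 3` and `c, ε > 0`. There is an `η > 0` such that for `θ < 1` and all `α > a₀` outside a set of Hausdorff dimension
at most `(1 - η + τ) / (1 - θ)` and each `κ`, for all but finitely many `k`, for ALL primes `q` with
`|q - f_k(α)| ≤ κ f_k(α) ^ θ` every coset of every subgroup with at least `c q ^ β` elements of the group of the Dirichlet
characters modulo `q` contains a character with large central value.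
-/

set_option autoImplicit false

namespace Pool.Agent.Results.MP_3e6494_nt.StarshapedPrimes

/-- the functions `f n` are positive on `(a, ∞)`, `a ≥ 0`, and `f n x / x` is nondecreasing there -/
def Starshaped (a : ℝ) (f : ℕ → ℝ → ℝ) : Prop :=
  0 ≤ a ∧ ∀ n : ℕ, ∀ x y : ℝ, a < x → x ≤ y → 0 < f n x ∧ f n x / x ≤ f n y / y

/-- for each `x > a` the exponent of convergence of the sequence `f n x` is at most `τ` -/
def ExpLe (a : ℝ) (f : ℕ → ℝ → ℝ) (τ : ℝ) : Prop :=
  ∀ x : ℝ, a < x → ∀ t : ℝ, τ < t → Summable (fun n : ℕ => (f n x) ^ (-t))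

/-- every coset of every subgroup with at least `c q ^ β` elements of the group of the Dirichlet characters modulo `q` has a
member with a large central value (with the constant `√(3 β - 2) - ε`) -/
def LargeValues (β c ε : ℝ) (q : ℕ) : Prop :=
  ∀ _ : NeZero q, ∀ (H : Subgroup (DirichletCharacter ℂ q)) (χ₀ : DirichletCharacter ℂ q),
    c * (q : ℝ) ^ β ≤ (Nat.card H : ℝ) →
    ∃ ψ ∈ H, Real.exp ((Real.sqrt (3 * β - 2) - ε) *
      Real.sqrt (Real.log q * Real.log (Real.log (Real.log q)) / Real.log (Real.log q))) ≤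
        ‖DirichletCharacter.LFunction (χ₀ * ψ) (1 / 2)‖

/-- **Theorem.** For all `2 / 3 < β ≤ 1` and `c, ε > 0` there is an `η > 0` such that for all starshaped functions `f` on
`(a, ∞)` of exponent of convergence at most `τ ≥ 0` and `θ < 1` there is a set `E` of Hausdorff dimension at most
`(1 - η + τ) / (1 - θ)` such that for each `α > a` outside `E`, each `κ` and all but finitely many `k`, for ALL primes `q` with
`|q - f_k(α)| ≤ κ f_k(α) ^ θ` every coset `χ₀ H` of every subgroup `H` with at least `c q ^ β` elements of the group of the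
Dirichlet characters modulo `q` contains a character `χ` with
`|L(χ, 1/2)| ≥ exp ((√(3 β - 2) - ε) √(log q logloglog q / loglog q))`.
The functions `v_n x`, `v_n > 0`, are starshaped on `(0, ∞)`, of exponent `τ` if `v` has exponent of convergence at most
`τ`; the functions `x ^ (v_n)`, `v_n ≥ 1`, are starshaped on `(1, ∞)`, of exponent `0` if the sums of `exp (-t v_n)` converge
for `t > 0`; and the iterates of a map `g` with `g(x) > x` for `x > a` and `g(x) / x` nondecreasing are starshaped on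
`(a, ∞)`, of exponent `0`. -/
theorem result :
    (∀ β : ℝ, 2 / 3 < β → β ≤ 1 → ∀ c : ℝ, 0 < c → ∀ ε : ℝ, 0 < ε → ∃ η : ℝ, 0 < η ∧
      ∀ (f : ℕ → ℝ → ℝ) (a τ θ : ℝ), Starshaped a f → 0 ≤ τ → ExpLe a f τ → θ < 1 →
        ∃ E : Set ℝ, dimH E ≤ ENNReal.ofReal ((1 - η + τ) / (1 - θ)) ∧
          ∀ α : ℝ, a < α → α ∉ E → ∀ κ : ℝ, ∃ k₀ : ℕ, ∀ k : ℕ, k₀ ≤ k → ∀ q : ℕ, q.Prime →
            |(q : ℝ) - f k α| ≤ κ * (f k α) ^ θ → LargeValues β c ε q) ∧
    (∀ (v : ℕ → ℝ) (τ : ℝ), (∀ n, 0 < v n) → (∀ t : ℝ, τ < t → Summable (fun n : ℕ => (v n) ^ (-t))) →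
      Starshaped 0 (fun n x => v n * x) ∧ ExpLe 0 (fun n x => v n * x) τ) ∧
    (∀ v : ℕ → ℝ, (∀ n, 1 ≤ v n) → (∀ t : ℝ, 0 < t → Summable fun n : ℕ => Real.exp (-(t * v n))) →
      Starshaped 1 (fun n x => x ^ (v n)) ∧ ExpLe 1 (fun n x => x ^ (v n)) 0) ∧
    (∀ (a : ℝ) (g : ℝ → ℝ), 0 ≤ a → (∀ x y : ℝ, a < x → x ≤ y → g x / x ≤ g y / y) → (∀ x : ℝ, a < x → x < g x) →
      Starshaped a (fun n x => g^[n] x) ∧ ExpLe a (fun n x => g^[n] x) 0) := by
  refine ⟨fun β hβ hβ1 c hc ε hε => ?_, Pool.Agent.R482.ST.ex_mul, Pool.Agent.R482.ST.ex_pow, Pool.Agent.R482.ST.ex_orbit⟩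
  obtain ⟨η, hη, Q₀, hQ⟩ := AlmostAllPrimes.result β hβ hβ1 c hc ε hε
  refine ⟨min η 1, lt_min hη one_pos, fun f a τ θ hf hτ hE hθ => ?_⟩
  obtain ⟨E, h1, h2⟩ := Pool.Agent.R482.ST.windows {q : ℕ | q.Prime ∧ ¬ LargeValues β c ε q} (fun q => (q : ℝ)) hf hτ hE
    (s := 1 - min η 1) (sub_nonneg.2 (min_le_right _ _)) hθ (fun ε' hε' => by
      refine ⟨(Q₀ : ℝ) + 1, fun X hX => ?_⟩
      have hX0 : (0 : ℝ) ≤ X := by linarith
      have hsub : {q : ℕ | q ∈ {q : ℕ | q.Prime ∧ ¬ LargeValues β c ε q} ∧ (q : ℝ) ≤ X} ⊆ Set.Icc 1 ⌊X⌋₊ := by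
        rintro q ⟨⟨h1, -⟩, h2⟩
        exact ⟨h1.one_lt.le, Nat.le_floor h2⟩
      have hfin : {q : ℕ | q ∈ {q : ℕ | q.Prime ∧ ¬ LargeValues β c ε q} ∧ (q : ℝ) ≤ X}.Finite :=
        (Set.finite_Icc 1 ⌊X⌋₊).subset hsub
      refine ⟨hfin, ?_⟩
      have hp1 : 1 ≤ X ^ (1 - min η 1 + ε') := Real.one_le_rpow hX (by
        have := min_le_right η 1
        linarith)
      rcases Nat.lt_or_ge ⌊X⌋₊ Q₀ with hlt | hge
      · have h3 := Set.ncard_le_ncard hsub (Set.finite_Icc 1 ⌊X⌋₊)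
        rw [Set.ncard_eq_toFinset_card' (Set.Icc 1 ⌊X⌋₊)] at h3
        simp only [Set.toFinset_Icc, Nat.card_Icc, add_tsub_cancel_right] at h3
        have h4 : ({q : ℕ | q ∈ {q : ℕ | q.Prime ∧ ¬ LargeValues β c ε q} ∧ (q : ℝ) ≤ X}.ncard : ℝ) ≤ Q₀ := by
          exact_mod_cast h3.trans hlt.le
        calc _ ≤ (Q₀ : ℝ) := h4
          _ ≤ ((Q₀ : ℝ) + 1) * 1 := by linarith
          _ ≤ _ := mul_le_mul_of_nonneg_left hp1 (by positivity)
      · obtain ⟨Bad, hB1, hB2⟩ := hQ ⌊X⌋₊ hge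
        have hsub2 : {q : ℕ | q ∈ {q : ℕ | q.Prime ∧ ¬ LargeValues β c ε q} ∧ (q : ℝ) ≤ X} ⊆ (Bad : Set ℕ) := by
          rintro q ⟨⟨h3, h4⟩, h5⟩
          by_contra hcon
          exact h4 fun hne H χ₀ hH => @hB2 q hne h3 (Nat.le_floor h5) hcon H χ₀ hH
        have h3 := Set.ncard_le_ncard hsub2 (Finset.finite_toSet _)
        rw [Set.ncard_coe_finset] at h3
        have hf1 : (1 : ℝ) ≤ (⌊X⌋₊ : ℝ) := by
          exact_mod_cast Nat.le_floor (by exact_mod_cast hX)
        calc _ ≤ (Bad.card : ℝ) := by exact_mod_cast h3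
          _ ≤ (⌊X⌋₊ : ℝ) ^ (1 - η) := hB1
          _ ≤ (⌊X⌋₊ : ℝ) ^ (1 - min η 1 + ε') := Real.rpow_le_rpow_of_exponent_le hf1 (by
              have := min_le_left η 1
              linarith)
          _ ≤ X ^ (1 - min η 1 + ε') := Real.rpow_le_rpow (by positivity) (Nat.floor_le hX0) (by
              have := min_le_right η 1
              linarith)
          _ = 1 * X ^ (1 - min η 1 + ε') := (one_mul _).symm
          _ ≤ _ := mul_le_mul_of_nonneg_right (by
              have : (0 : ℝ) ≤ Q₀ := Nat.cast_nonneg _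
              linarith) (by positivity))
  refine ⟨E, h1, fun α hα hαE κ => ?_⟩
  obtain ⟨k₀, hk⟩ := h2 α hα hαE κ
  refine ⟨k₀, fun k hk1 q hq hw => ?_⟩
  by_contra hcon
  exact absurd (hk k hk1 q ⟨hq, hcon⟩) (not_lt.2 hw)

end Pool.Agent.Results.MP_3e6494_nt.StarshapedPrimes
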